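import Pool.Agent.TH10.AW.ExplG
import Pool.Agent.TH10.AW.TauForm

/-! Classification of the irreducible modules of polynomial type of the Askey-Wilson algebra, over
any field and for all values of the eight scalars. -/

set_option autoImplicit false

universe u v w

open Pool.Agent.TH10.AW

/-- For every field and every choice of the eight scalars:
(1) every irreducible module of polynomial type is isomorphic to a model module whose parameters
    `D = (N, θ, a, x)` are of one of four types: I (distinct `θ n`), II (`A*` scalar), III, IV;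
(2) every model module has polynomial type, and is irreducible iff its parameters are of one of the
    four types; over an algebraically closed field only the types I and IV with `d = 1` occur;
(3) two irreducible model modules are isomorphic iff their parameters are related by `Eqv`
    (type I: equal or reversed; type II: same eigenvalue and same polynomial `P_N`; type III: same
    `N`, `θ 0`, `θ 1`, `a 0`; type IV: same eigenvalues, Casimir value and polynomial `P_N`; no
    isomorphisms between different types);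
(4), (5) the admissible parameters in closed form;
(6) the eigenvalue sequences in closed form. -/
theorem Pool.Agent.Results.MP_af5c07_al.Classification.result
    {K : Type u} [Field K] (p : Scal K) :
    (∀ (V : Type v) [AddCommGroup V] [Module K V] [Module (AWAlg p) V]
        [IsScalarTower K (AWAlg p) V] [IsSimpleModule (AWAlg p) V], PolyType p V →
        ∃ (D : Data K) (h : D.Ok p), (D.Dist ∨ D.II ∨ D.III ∨ ∃ d, D.IV p d) ∧
          Nonempty (V ≃ₗ[AWAlg p] Mod h)) ∧
    (∀ (D : Data K) (h : D.Ok p), PolyType p (Mod h) ∧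
        (IsSimpleModule (AWAlg p) (Mod h) ↔ (D.Dist ∨ D.II ∨ D.III ∨ ∃ d, D.IV p d)) ∧
        (IsAlgClosed K → (IsSimpleModule (AWAlg p) (Mod h) ↔ (D.Dist ∨ D.IV p 1)))) ∧
    (∀ (D D' : Data K) (h : D.Ok p) (h' : D'.Ok p), IsSimpleModule (AWAlg p) (Mod h) →
        IsSimpleModule (AWAlg p) (Mod h') →
        (Nonempty (Mod h ≃ₗ[AWAlg p] Mod h') ↔ D.Eqv D' p)) ∧
    (∀ D : Data K, D.N = 1 → (D.Ok p ↔ (p.P (D.θ 0) (D.θ 0) * D.a 0 = p.u (D.θ 0) ∧
        p.S (D.θ 0) (D.a 0) = 0 ∧ ∀ n, D.x n = 0))) ∧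
    (∀ D : Data K, 1 < D.N → (D.Ok p ↔ (D.Xok ∧ (D.Const p ∨ ∃ (τ : ℤ → K) (κ : K),
        D.Ext p τ ∧ ¬ Per τ 1 ∧ Expl p D.N τ κ D.a D.x)))) ∧
    (∀ τ : ℤ → K,
      (∀ (L : Type w) [Field L] [Algebra K L] (q : L), q ≠ 0 → q + q⁻¹ = algebraMap K L p.β →
        q ^ 2 ≠ 1 → (IsTau p τ ↔ ∃ b1 b2 : L,
          b1 * b2 * (q - q⁻¹) ^ 2 * (2 - algebraMap K L p.β) =
            -(algebraMap K L p.ρs * (2 - algebraMap K L p.β) + algebraMap K L p.γs ^ 2) ∧
          ∀ n : ℤ, algebraMap K L (τ n) = algebraMap K L p.γs / (2 - algebraMap K L p.β) +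
            b1 * q ^ n + b2 * q ^ (-n))) ∧
      (p.β = 2 → (IsTau p τ ↔ ((τ 1 - τ 0) ^ 2 = p.γs * (τ 0 + τ 1) + p.ρs ∧ ∀ n : ℤ,
        τ n = τ 0 + n * (τ 1 - τ 0) + ((n * (n - 1) / 2 : ℤ) : K) * p.γs))) ∧
      (p.β = -2 → (4 : K) ≠ 0 → (IsTau p τ ↔ ((τ 1 + τ 0) ^ 2 = p.γs * (τ 0 + τ 1) + p.ρs ∧
        ∀ n : ℤ, τ n = p.γs / 4 + (-1) ^ n *
          ((τ 0 - p.γs / 4) - n * ((τ 0 - p.γs / 4) + (τ 1 - p.γs / 4))))))) := by
  refine ⟨?_, ?_, ?_, ?_, ?_, ?_⟩
  · intro V _ _ _ _ hs hP
    obtain ⟨N, v, θ, a, x, hpb⟩ := exists_PB hP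
    obtain ⟨hD, ⟨ψ⟩⟩ := exists_model hpb
    have hs' : IsSimpleModule (AWAlg p) (Mod hD) := IsSimpleModule.congr ψ.symm
    exact ⟨_, hD, (simple_iff_types hD).1 hs', ⟨ψ⟩⟩
  · intro D h
    exact ⟨h.poly, simple_iff_types h, fun _ => (simple_iff_types h).trans types_closed⟩
  · intro D D' h h' hs hs'
    exact iso_iff_eqv h h' hs hs'
  · intro D hN
    exact ok_one_iff D hN
  · intro D hN
    exact ok_iff_expl D hN
  · intro τ
    refine ⟨?_, ?_, ?_⟩
    · intro L _ _ q hq0 hq hq2
      exact isTau_iff_q hq0 hq hq2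
    · intro hβ
      exact isTau_iff_two hβ
    · intro hβ h4
      exact isTau_iff_neg_two hβ h4
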